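import Pool.Agent.helper52.IR.Spec

/-!
# Row `ir:CT1` (MP_07c750_an, project IR): counting of the frequencies for one family of boxes
-/

open scoped MatrixGroups ContDiff Topology UpperHalfPlane ComplexConjugate
open UpperHalfPlane MeasureTheory Filter Set

set_option autoImplicit false

namespace Pool.Agent.IR

open Pool.Agent.RS
open Pool.Agent.HV (FW)

/-- `lM a nM z aM τ lM o = nM z' aM τ' lM o'` -/
theorem CT1_mat (a z τ o : ℝ) (h : 0 < 1 + a * z) :
    lM a * nM z * aM τ * lM o = nM (z / (1 + a * z)) * aM (τ - 2 * Real.log (1 + a * z)) * lM (a * Real.exp τ / (1 + a * z) + o) := by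
  obtain ⟨D, hD⟩ : ∃ D : ℝ, D = 1 + a * z := ⟨_, rfl⟩
  rw [← hD] at h ⊢
  have h1 : Real.exp ((τ - 2 * Real.log D) / 2) = Real.exp (τ / 2) / D := by
    rw [show (τ - 2 * Real.log D) / 2 = τ / 2 - Real.log D by ring, Real.exp_sub, Real.exp_log h]
  have h2 : Real.exp (-((τ - 2 * Real.log D) / 2)) = Real.exp (-(τ / 2)) * D := by
    rw [show -((τ - 2 * Real.log D) / 2) = -(τ / 2) + Real.log D by ring, Real.exp_add, Real.exp_log h]
  have h3 : Real.exp (-(τ / 2)) * Real.exp τ = Real.exp (τ / 2) := by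
    rw [← Real.exp_add]
    congr 1
    ring
  have hne : D ≠ 0 := h.ne'
  have hv : ∀ A B : SL(2, ℝ), (A * B).1 = A.1 * B.1 := fun A B => rfl
  apply Subtype.ext
  rw [hv, hv, hv, hv, hv]
  simp only [lM, nM, aM, h1, h2]
  ext i j
  fin_cases i <;> fin_cases j <;> simp [Matrix.mul_apply, Fin.sum_univ_two]
  · have h4 : Real.exp (τ / 2) / D + z / D * (Real.exp (-(τ / 2)) * D) * (a * Real.exp τ / D + o) =
        (Real.exp (τ / 2) + z * a * (Real.exp (-(τ / 2)) * Real.exp τ)) / D + z * Real.exp (-(τ / 2)) * o := by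
      field_simp
      ring
    rw [h4, h3, show Real.exp (τ / 2) + z * a * Real.exp (τ / 2) = Real.exp (τ / 2) * D by rw [hD]; ring, mul_div_assoc, div_self hne, mul_one]
  · field_simp
  · have h4 : Real.exp (-(τ / 2)) * D * (a * Real.exp τ / D + o) = a * (Real.exp (-(τ / 2)) * Real.exp τ) + Real.exp (-(τ / 2)) * D * o := by
      field_simp
    rw [h4, h3, hD]
    ring
  · rw [hD]
    ring

/-- number of integers in an interval -/
theorem CT1_card (F : Finset ℤ) (α β : ℝ) (h0 : α ≤ β + 1) (h : ∀ j ∈ F, α ≤ j ∧ (j : ℝ) ≤ β) : (F.card : ℝ) ≤ β - α + 1 := by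
  rcases F.eq_empty_or_nonempty with rfl | ⟨j0, hj0⟩
  · simp
    linarith
  · have h1 : F ⊆ Finset.Icc ⌈α⌉ ⌊β⌋ := fun j hj => Finset.mem_Icc.2 ⟨Int.ceil_le.2 (h j hj).1, Int.le_floor.2 (h j hj).2⟩
    have h2 := Finset.card_le_card h1
    rw [Int.card_Icc] at h2
    have h3 : ⌈α⌉ ≤ ⌊β⌋ := (Int.ceil_le.2 (h j0 hj0).1).trans (Int.le_floor.2 (h j0 hj0).2)
    have h4 : ((⌊β⌋ + 1 - ⌈α⌉).toNat : ℤ) = ⌊β⌋ + 1 - ⌈α⌉ := Int.toNat_of_nonneg (by omega)
    have h5 : (F.card : ℤ) ≤ ⌊β⌋ + 1 - ⌈α⌉ := by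
      rw [← h4]
      exact_mod_cast h2
    have h6 : (F.card : ℝ) ≤ (⌊β⌋ : ℝ) + 1 - ⌈α⌉ := by exact_mod_cast h5
    have h7 := Int.floor_le β
    have h8 := Int.le_ceil α
    linarith

theorem CT1_proof (hCTB : CTB_stmt) : CT1_stmt := by
  classical
  intro Γ hΓ
  obtain ⟨C0, hC0, hC⟩ := hCTB Γ hΓ
  refine ⟨12 * C0, by positivity, ?_⟩
  intro b Λ2 n εc l l0 A g J hb hb1 hΛ hn hε hε1 hl hl0 hl1 hJ
  have hπ := Real.pi_pos
  have hεp : 0 < εc := by
    rw [hε]
    positivity
  have key : ∀ j ∈ J, ∃ Z : ℝ, |Z - j * εc| ≤ 5 * εc ∧ ∃ (t u : ℝ) (e : SL(2, ℝ)), (e = 1 ∨ e = -1) ∧ |Z| ≤ 4 ∧ |t| ≤ 3 / 2 ∧ |u| ≤ 1 / 4 ∧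
      e * g * nM Z * aM t * lM u * aM (-n) ∈ FW Γ A b (Real.exp (-n)) := by
    intro j hj
    obtain ⟨hj1, u, hu, x, τ, o, e, he, hx, hτ, ho, hm⟩ := hJ j hj
    obtain ⟨a, ha⟩ : ∃ a : ℝ, a = l * u := ⟨_, rfl⟩
    obtain ⟨z, hz⟩ : ∃ z : ℝ, z = j * εc + x := ⟨_, rfl⟩
    rw [← ha, ← hz] at hm
    have ha0 : 0 ≤ a := by rw [ha]; exact mul_nonneg hl hu.1
    have ha1 : a ≤ l := by rw [ha]; exact mul_le_of_le_one_right hl hu.2
    have ha2 : a ≤ εc / 100 := ha1.trans (hl0.trans hl1)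
    have hx' := abs_le.1 hx
    have hj' := abs_le.1 hj1
    have hz1 : |z| ≤ 34 / 100 := by
      rw [hz, abs_le]
      constructor <;> linarith
    have haz : |a * z| ≤ 1 / 10000 := by
      rw [abs_mul, abs_of_nonneg ha0]
      calc a * |z| ≤ (1 / 10000) * 1 := mul_le_mul (by linarith) (by linarith) (abs_nonneg _) (by norm_num)
        _ = 1 / 10000 := by norm_num
    have haz' := abs_le.1 haz
    have hpos : 0 < 1 + a * z := by linarith
    have hge : 99 / 100 ≤ 1 + a * z := by linarith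
    have hmat := CT1_mat a z τ o hpos
    have hm2 : e * g * (lM a * nM z * aM τ * lM o) ∈ {h | h * aM (-n) ∈ FW Γ A b (Real.exp (-n))} := by
      have h1 : e * g * (lM a * nM z * aM τ * lM o) = e * g * lM a * nM z * aM τ * lM o := by simp only [mul_assoc]
      rw [h1]
      exact hm
    rw [hmat] at hm2
    have hm3 : e * g * nM (z / (1 + a * z)) * aM (τ - 2 * Real.log (1 + a * z)) * lM (a * Real.exp τ / (1 + a * z) + o) * aM (-n) ∈ FW Γ A b (Real.exp (-n)) := by
      have h1 : e * g * nM (z / (1 + a * z)) * aM (τ - 2 * Real.log (1 + a * z)) * lM (a * Real.exp τ / (1 + a * z) + o) * aM (-n) =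
          e * g * (nM (z / (1 + a * z)) * aM (τ - 2 * Real.log (1 + a * z)) * lM (a * Real.exp τ / (1 + a * z) + o)) * aM (-n) := by simp only [mul_assoc]
      rw [h1]
      exact hm2
    have hzd : |z / (1 + a * z) - z| ≤ εc / 100 := by
      have h1 : z / (1 + a * z) - z = -(a * z * z) / (1 + a * z) := by
        rw [eq_div_iff hpos.ne', sub_mul, div_mul_cancel₀ _ hpos.ne']
        ring
      rw [h1, abs_div, abs_of_pos hpos, div_le_iff₀ hpos, abs_neg, abs_mul, abs_mul, abs_of_nonneg ha0]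
      have h2 : |z| * |z| ≤ 34 / 100 * (34 / 100) := mul_le_mul hz1 hz1 (abs_nonneg _) (by norm_num)
      calc a * |z| * |z| = a * (|z| * |z|) := by ring
        _ ≤ εc / 100 * (34 / 100 * (34 / 100)) := mul_le_mul ha2 h2 (by positivity) (by positivity)
        _ ≤ εc / 100 * (1 + a * z) := mul_le_mul_of_nonneg_left (by linarith) (by positivity)
    have hzd' := abs_le.1 hzd
    have hz1' := abs_le.1 hz1
    refine ⟨z / (1 + a * z), ?_, τ - 2 * Real.log (1 + a * z), a * Real.exp τ / (1 + a * z) + o, e, he, ?_, ?_, ?_, hm3⟩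
    · rw [abs_le]
      constructor <;> linarith
    · rw [abs_le]
      constructor <;> linarith
    · have h1 : Real.log (1 + a * z) ≤ 1 / 10000 := by
        have := Real.log_le_sub_one_of_pos hpos
        linarith
      have h2 : -(1 / 10) ≤ Real.log (1 + a * z) := by
        have := Real.one_sub_inv_le_log_of_pos hpos
        have h3 : (1 + a * z)⁻¹ ≤ 11 / 10 := by
          rw [inv_le_comm₀ hpos (by norm_num)]
          linarith
        linarith
      have hτ' := abs_le.1 hτ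
      rw [abs_le]
      constructor <;> linarith
    · have h1 : Real.exp τ ≤ 3 := by
        have h2 : τ ≤ 1 := by
          have := (abs_le.1 hτ).2
          linarith
        have h3 := Real.exp_le_exp.2 h2
        have h4 := Real.exp_one_lt_d9
        linarith
      have h2 : 0 ≤ a * Real.exp τ / (1 + a * z) := by positivity
      have h3 : a * Real.exp τ / (1 + a * z) ≤ 1 / 100 := by
        rw [div_le_iff₀ hpos]
        calc a * Real.exp τ ≤ 1 / 10000 * 3 := mul_le_mul (by linarith) h1 (Real.exp_pos _).le (by norm_num)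
          _ ≤ 1 / 100 * (1 + a * z) := by linarith
      have ho' := abs_le.1 ho
      rw [abs_le]
      constructor <;> linarith
  choose! Z hZ1 hZ2 using key
  have hT := hC b n A g (J.image fun j => ⌊Z j * Real.exp n⌋) hb hb1 hn (by
    intro m hm
    obtain ⟨j, hj, rfl⟩ := Finset.mem_image.1 hm
    obtain ⟨t, u, e, he, hz4, ht, hu, hmem⟩ := hZ2 j hj
    exact ⟨Z j, t, u, e, he, hz4, ht, hu, Int.floor_le _, Int.lt_floor_add_one _, hmem⟩)
  have hfib : ∀ m ∈ J.image (fun j => ⌊Z j * Real.exp n⌋), ((J.filter fun j => ⌊Z j * Real.exp n⌋ = m).card : ℝ) ≤ 12 * Λ2 := by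
    intro m _
    have hen : 0 < Real.exp n := Real.exp_pos n
    have hex : Real.exp (-n) * Real.exp n = 1 := by rw [← Real.exp_add, neg_add_cancel, Real.exp_zero]
    have hee : εc * Real.exp n = Real.pi / (2 * Λ2) := by
      rw [hε]
      linear_combination (Real.pi / (2 * Λ2)) * hex
    have hq : 0 < εc * Real.exp n := mul_pos hεp hen
    have h1 := CT1_card (J.filter fun j => ⌊Z j * Real.exp n⌋ = m) ((m : ℝ) / (εc * Real.exp n) - 5) (((m : ℝ) + 1) / (εc * Real.exp n) + 5) (by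
      have h2 : (m : ℝ) / (εc * Real.exp n) ≤ ((m : ℝ) + 1) / (εc * Real.exp n) := div_le_div_of_nonneg_right (by linarith) hq.le
      linarith) (by
      intro j hj
      obtain ⟨hj1, hj2⟩ := Finset.mem_filter.1 hj
      have h3 := abs_le.1 (hZ1 j hj1)
      have h4 := Int.floor_le (Z j * Real.exp n)
      have h5 := Int.lt_floor_add_one (Z j * Real.exp n)
      rw [hj2] at h4 h5
      have h6 : Z j * Real.exp n ≤ ((j : ℝ) + 5) * (εc * Real.exp n) := by
        have : Z j ≤ (j + 5) * εc := by linarith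
        calc Z j * Real.exp n ≤ ((j + 5) * εc) * Real.exp n := mul_le_mul_of_nonneg_right this hen.le
          _ = _ := by ring
      have h7 : ((j : ℝ) - 5) * (εc * Real.exp n) ≤ Z j * Real.exp n := by
        have : (j - 5) * εc ≤ Z j := by linarith
        calc ((j : ℝ) - 5) * (εc * Real.exp n) = ((j - 5) * εc) * Real.exp n := by ring
          _ ≤ _ := mul_le_mul_of_nonneg_right this hen.le
      constructor
      · have h8 : (m : ℝ) / (εc * Real.exp n) ≤ j + 5 := by
          rw [div_le_iff₀ hq]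
          linarith
        linarith
      · have h8 : (j : ℝ) - 5 ≤ ((m : ℝ) + 1) / (εc * Real.exp n) := by
          rw [le_div_iff₀ hq]
          linarith
        linarith)
    have h9 : ((m : ℝ) + 1) / (εc * Real.exp n) - (m : ℝ) / (εc * Real.exp n) ≤ Λ2 := by
      rw [← sub_div, add_sub_cancel_left, hee, one_div_div, div_le_iff₀ hπ]
      have := Real.pi_gt_three
      nlinarith
    linarith
  rw [Finset.card_eq_sum_card_image (fun j => ⌊Z j * Real.exp n⌋) J]
  push_cast
  calc ∑ m ∈ J.image (fun j => ⌊Z j * Real.exp n⌋), ((J.filter fun j => ⌊Z j * Real.exp n⌋ = m).card : ℝ)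
      ≤ ∑ m ∈ J.image (fun j => ⌊Z j * Real.exp n⌋), 12 * Λ2 := Finset.sum_le_sum hfib
    _ = (J.image (fun j => ⌊Z j * Real.exp n⌋)).card * (12 * Λ2) := by rw [Finset.sum_const, nsmul_eq_mul]
    _ ≤ C0 * A.card * (12 * Λ2) := mul_le_mul_of_nonneg_right hT (by positivity)
    _ = 12 * C0 * Λ2 * A.card := by ring

end Pool.Agent.IR
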